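import Pool.Agent.Helper7.SC.Frames

set_option autoImplicit false

/-!
The Jensen step (StD) of the sensitivity of choice functions.
-/

namespace Pool.Agent.Helper18.SC

open Finset Pool.Agent.Helper7.SC

lemma exp_le {y : ℝ} (h : |y| ≤ 1 / 2) : Real.exp (y - y ^ 2) ≤ 1 + y := by
  obtain ⟨h1, h2⟩ := abs_le.1 h
  rcases le_total 0 y with hy | hy
  · have h3 : |y - y ^ 2| ≤ 1 := by
      rw [abs_le]; constructor <;> nlinarith
    have h4 := (abs_le.1 (Real.abs_exp_sub_one_sub_id_le h3)).2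
    have h5 : (y - y ^ 2) ^ 2 ≤ y ^ 2 := by
      have : 0 ≤ y - y ^ 2 := by nlinarith
      have : y - y ^ 2 ≤ y := by nlinarith [sq_nonneg y]
      exact pow_le_pow_left₀ ‹_› this 2
    linarith
  · have h3 : 0 ≤ -(y - y ^ 2) := by nlinarith
    have h4 := Real.quadratic_le_exp_of_nonneg h3
    have h5 : 0 < Real.exp (-(y - y ^ 2)) := Real.exp_pos _
    have h6 : 1 ≤ (1 + y) * Real.exp (-(y - y ^ 2)) := by
      have h7 : 0 < 1 + y := by linarith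
      have h8 : 1 ≤ (1 + y) * (1 + -(y - y ^ 2) + (-(y - y ^ 2)) ^ 2 / 2) := by
        obtain ⟨s, rfl⟩ : ∃ s, y = -s := ⟨-y, by ring⟩
        have hs0 : 0 ≤ s := by linarith
        have hs1 : s ≤ 1 / 2 := by linarith
        have e : (1 + -s) * (1 + -(-s - (-s) ^ 2) + (-(-s - (-s) ^ 2)) ^ 2 / 2) =
            1 + s ^ 2 * (1 / 2 - s / 2 - s ^ 2 / 2 - s ^ 3 / 2) := by ring
        rw [e]
        have hs2 : s ^ 2 ≤ 1 / 4 := by nlinarith
        have hs3 : s ^ 3 ≤ 1 / 8 := by nlinarith [mul_nonneg hs0 (sq_nonneg s)]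
        nlinarith [sq_nonneg s]
      exact h8.trans (mul_le_mul_of_nonneg_left h4 h7.le)
    have h7 : Real.exp (y - y ^ 2) * Real.exp (-(y - y ^ 2)) = 1 := by
      rw [← Real.exp_add, add_neg_cancel, Real.exp_zero]
    exact le_of_mul_le_mul_right (h7.trans_le h6) h5

lemma card_Kz (H : ℕ) : (#(Kz H) : ℝ) = 2 * H := by
  unfold Kz
  rw [card_erase_of_mem (by simp), Int.card_Icc]
  have : ((H : ℤ) + 1 - -(H : ℤ)).toNat - 1 = 2 * H := by omega
  rw [this]; push_cast; ring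

lemma abs_ka {H : ℕ} (hH : 1 ≤ H) (y : ℝ) : |ka H y| ≤ 1 := by
  have hH' : (0 : ℝ) < 2 * H := by positivity
  unfold ka
  rw [abs_mul, abs_of_pos (by positivity), one_div, inv_mul_le_iff₀ hH', mul_one, ← card_Kz]
  refine (abs_sum_le_sum_abs _ _).trans ?_
  calc _ ≤ ∑ k ∈ Kz H, (1 : ℝ) := sum_le_sum fun k _ => Real.abs_cos_le_one _
    _ = _ := by simp

lemma wt_nonneg {Q : ℕ} {p : ℝ} (h0 : 0 ≤ p) (h1 : p ≤ 1) (s : St Q) : 0 ≤ wt Q p s := by
  cases s with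
  | none => exact sub_nonneg.2 h1
  | some t => exact div_nonneg h0 (by positivity)

lemma P_nonneg {Q m : ℕ} {p : ℝ} (h0 : 0 ≤ p) (h1 : p ≤ 1) (ω : Fin m → St Q) : 0 ≤ P p ω :=
  prod_nonneg fun _ _ => wt_nonneg h0 h1 _

lemma sum_P {Q : ℕ} (hQ : 0 < Q) (m : ℕ) (p : ℝ) : ∑ ω : Fin m → St Q, P p ω = 1 := by
  have h : ∑ s : St Q, wt Q p s = 1 := by
    rw [Fintype.sum_option]
    have : ∀ t : Fin Q × Fin Q, wt Q p (some t) = p / (Q : ℝ) ^ 2 := fun _ => rfl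
    simp only [this, sum_const, card_univ, Fintype.card_prod, Fintype.card_fin, nsmul_eq_mul]
    have hQ' : (Q : ℝ) ≠ 0 := by positivity
    change 1 - p + _ = 1
    push_cast
    field_simp
    ring
  have h2 := Finset.prod_univ_sum (fun _ : Fin m => (univ : Finset (St Q)))
    (fun _ s => wt Q p s)
  rw [Fintype.piFinset_univ] at h2
  unfold P
  rw [← h2, h, prod_const_one]

lemma law_nonneg {b q r m K : ℕ} {p : ℝ} (h0 : 0 ≤ p) (h1 : p ≤ 1) (t : ZMod (b ^ K)) :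
    0 ≤ law b q r m K p t :=
  sum_nonneg fun ω _ => by
    split_ifs
    · exact P_nonneg h0 h1 ω
    · exact le_rfl

lemma sum_law_le {b q r m K : ℕ} {p : ℝ} (hb : 2 ≤ b) (h0 : 0 ≤ p) (h1 : p ≤ 1) {D : Finset ℕ}
    (hD : D ⊆ range (b ^ K)) (s : ZMod (b ^ K)) :
    ∑ n ∈ D, law b q r m K p ((n : ZMod (b ^ K)) - s) ≤ 1 := by
  unfold law
  rw [sum_comm, ← sum_P (Q := b ^ q) (by positivity) m p]
  refine sum_le_sum fun ω _ => ?_
  rw [← sum_filter, sum_const, nsmul_eq_mul]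
  have h : #(D.filter fun n : ℕ => ((z b q r ω : ℤ) : ZMod (b ^ K)) = (n : ZMod (b ^ K)) - s) ≤ 1 :=
    by
    refine card_le_one.2 fun x hx y hy => ?_
    rw [mem_filter] at hx hy
    have h2 : (x : ZMod (b ^ K)) = y := by
      have := hx.2.symm.trans hy.2
      exact sub_left_injective this
    rw [ZMod.natCast_eq_natCast_iff'] at h2
    rwa [Nat.mod_eq_of_lt (mem_range.1 (hD hx.1)), Nat.mod_eq_of_lt (mem_range.1 (hD hy.1))] at h2
  have h3 : (#(D.filter fun n : ℕ => ((z b q r ω : ℤ) : ZMod (b ^ K)) =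
      (n : ZMod (b ^ K)) - s) : ℝ) ≤ 1 := by exact_mod_cast h
  exact mul_le_of_le_one_left (P_nonneg h0 h1 ω) h3

theorem stD : StD := by
  intro b q r m K H p Δ ε₀ hb hH hm _ hΔ hΔ' hp0 hp1 hε S D f _ hD hf hyp
  set L : ℕ → ℕ → ℝ := fun n n' => law b q r m K p ((n' : ZMod (b ^ K)) - n) with hL
  set κ : ℕ → ℕ → ℝ := fun n n' =>
    ∑ B : Fin m, ka H (((f n : ℝ) - f n') / (b : ℝ) ^ (r + (B + 1) * q)) with hκ
  set N : ℝ := ∑ n ∈ D, ∑ n' ∈ D, L n n' with hN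
  have hL0 : ∀ n n', 0 ≤ L n n' := fun n n' => law_nonneg hp0 hp1 _
  have hκ1 : ∀ n n', κ n n' ≤ m := by
    intro n n'
    calc κ n n' ≤ ∑ _B : Fin m, (1 : ℝ) := sum_le_sum fun B _ => (abs_le.1 (abs_ka hH _)).2
      _ = m := by simp
  have hbK : (0 : ℝ) < (b : ℝ) ^ K := by positivity
  have hm' : (0 : ℝ) < m := by exact_mod_cast hm
  have hN1 : N ≤ (b : ℝ) ^ K := by
    calc N ≤ ∑ n ∈ D, (1 : ℝ) := sum_le_sum fun n _ => sum_law_le hb hp0 hp1 hD _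
      _ = #D := by simp
      _ ≤ (#(range (b ^ K)) : ℕ) := by exact_mod_cast card_le_card hD
      _ = _ := by rw [card_range]; push_cast; rfl
  have hN2 : ε₀ * (b : ℝ) ^ K ≤ N := by
    have h1 : ∑ n ∈ D, ∑ n' ∈ D, L n n' * κ n n' ≤ N * m := by
      rw [hN, sum_mul]
      refine sum_le_sum fun n _ => ?_
      rw [sum_mul]
      exact sum_le_sum fun n' _ => mul_le_mul_of_nonneg_left (hκ1 n n') (hL0 n n')
    have h2 : ε₀ * (b : ℝ) ^ K * m ≤ N * m := by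
      refine le_trans (le_of_eq ?_) (hyp.trans h1)
      ring
    exact le_of_mul_le_mul_right h2 hm'
  -- the twist
  have hR : ∀ d : ℤ, Real.exp (Δ * ∑ B : Fin m, ka H ((d : ℝ) / (b : ℝ) ^ (r + (B + 1) * q)) -
      Δ ^ 2 * m) ≤ R b q r m H Δ d := by
    intro d
    unfold R
    have e : Δ * ∑ B : Fin m, ka H ((d : ℝ) / (b : ℝ) ^ (r + (B + 1) * q)) - Δ ^ 2 * m =
        ∑ B : Fin m, (Δ * ka H ((d : ℝ) / (b : ℝ) ^ (r + (B + 1) * q)) - Δ ^ 2) := by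
      rw [sum_sub_distrib, mul_sum]; simp; ring
    rw [e, Real.exp_sum]
    refine prod_le_prod (fun _ _ => (Real.exp_pos _).le) fun B _ => ?_
    set y := ka H ((d : ℝ) / (b : ℝ) ^ (r + (B + 1) * q)) with hy
    have h1 : |y| ≤ 1 := abs_ka hH _
    have h2 : |Δ * y| ≤ 1 / 2 := by
      rw [abs_mul, abs_of_pos hΔ]
      calc Δ * |y| ≤ Δ * 1 := mul_le_mul_of_nonneg_left h1 hΔ.le
        _ ≤ _ := by linarith
    refine le_trans (Real.exp_le_exp.2 ?_) (exp_le h2)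
    have h3 : y ^ 2 ≤ 1 := by
      rw [← sq_abs]; exact pow_le_one₀ (abs_nonneg _) h1
    nlinarith [sq_nonneg Δ]
  have hR0 : ∀ d : ℤ, 0 ≤ R b q r m H Δ d := fun d => (Real.exp_pos _).le.trans (hR d)
  -- restriction to the choice
  set T : ℕ × ℕ → ℕ × ℕ → ℝ := fun x y =>
    law b q r m K p ((y.1 : ZMod (b ^ K)) + y.2 - x.1 - x.2) * R b q r m H Δ ((x.1 : ℤ) - y.1)
    with hT
  have hT0 : ∀ x y, 0 ≤ T x y := fun x y => mul_nonneg (law_nonneg hp0 hp1 _) (hR0 _)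
  have hX : X b q r m K H p Δ S = ∑ x ∈ S ×ˢ S, ∑ y ∈ S ×ˢ S, T x y := by
    unfold X
    rw [sum_product]
    refine sum_congr rfl fun a _ => sum_congr rfl fun a' _ => ?_
    rw [sum_product]
  set g : ℕ → ℕ × ℕ := fun n => (f n, n - f n) with hg
  have hginj : Set.InjOn g D := by
    intro n hn n' hn' h
    have h1 := congrArg Prod.fst h
    have h2 := congrArg Prod.snd h
    have h3 := (hf n hn).1
    have h4 := (hf n' hn').1
    simp only [hg] at h1 h2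
    omega
  have hsub : D.image g ⊆ S ×ˢ S := by
    intro x hx
    obtain ⟨n, hn, rfl⟩ := mem_image.1 hx
    exact mem_product.2 ⟨(hf n hn).2.1, (hf n hn).2.2⟩
  have hlow : ∑ n ∈ D, ∑ n' ∈ D, T (g n) (g n') ≤ X b q r m K H p Δ S := by
    rw [hX]
    calc ∑ n ∈ D, ∑ n' ∈ D, T (g n) (g n') = ∑ x ∈ D.image g, ∑ y ∈ D.image g, T x y := by
          rw [sum_image hginj]
          exact sum_congr rfl fun n _ => (sum_image hginj).symm
      _ ≤ ∑ x ∈ D.image g, ∑ y ∈ S ×ˢ S, T x y := sum_le_sum fun x _ =>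
          sum_le_sum_of_subset_of_nonneg hsub fun y _ _ => hT0 x y
      _ ≤ _ := sum_le_sum_of_subset_of_nonneg hsub fun x _ _ => sum_nonneg fun y _ => hT0 x y
  have hTg : ∀ n ∈ D, ∀ n' ∈ D, L n n' * Real.exp (Δ * κ n n' - Δ ^ 2 * m) ≤ T (g n) (g n') := by
    intro n hn n' hn'
    have h1 : ((g n').1 : ZMod (b ^ K)) + (g n').2 - (g n).1 - (g n).2 = (n' : ZMod (b ^ K)) - n := by
      simp only [hg]
      rw [Nat.cast_sub (hf n hn).1, Nat.cast_sub (hf n' hn').1]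
      ring
    simp only [hT]
    rw [h1]
    refine mul_le_mul_of_nonneg_left ?_ (hL0 n n')
    have h2 := hR (((g n).1 : ℤ) - (g n').1)
    have h3 : ((((g n).1 : ℤ) - (g n').1 : ℤ) : ℝ) = (f n : ℝ) - f n' := by
      simp only [hg]; push_cast; rfl
    rw [h3] at h2
    exact h2
  -- Jensen
  set x₀ : ℝ := (Δ * ε₀ - Δ ^ 2) * m with hx₀
  have hexp : ∀ x : ℝ, Real.exp x₀ * (1 + (x - x₀)) ≤ Real.exp x := by
    intro x
    have h1 := Real.add_one_le_exp (x - x₀)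
    have h2 : Real.exp x = Real.exp x₀ * Real.exp (x - x₀) := by
      rw [← Real.exp_add]; congr 1; ring
    rw [h2]
    exact mul_le_mul_of_nonneg_left (by linarith) (Real.exp_pos _).le
  have h1 : ∑ n ∈ D, ∑ n' ∈ D, L n n' * (Real.exp x₀ * (1 + (Δ * κ n n' - Δ ^ 2 * m - x₀))) ≤
      X b q r m K H p Δ S := by
    refine le_trans ?_ hlow
    exact sum_le_sum fun n hn => sum_le_sum fun n' hn' =>
      (mul_le_mul_of_nonneg_left (hexp _) (hL0 n n')).trans (hTg n hn n' hn')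
  have h2 : ∑ n ∈ D, ∑ n' ∈ D, L n n' * (Real.exp x₀ * (1 + (Δ * κ n n' - Δ ^ 2 * m - x₀))) =
      Real.exp x₀ * (N * (1 - Δ ^ 2 * m - x₀) + Δ * ∑ n ∈ D, ∑ n' ∈ D, L n n' * κ n n') := by
    rw [hN, sum_mul, mul_sum, ← sum_add_distrib, mul_sum]
    refine sum_congr rfl fun n _ => ?_
    rw [sum_mul, mul_sum, ← sum_add_distrib, mul_sum]
    refine sum_congr rfl fun n' _ => ?_
    ring
  rw [h2] at h1
  refine le_trans ?_ h1
  rw [mul_comm (ε₀ * (b : ℝ) ^ K)]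
  refine mul_le_mul_of_nonneg_left ?_ (Real.exp_pos _).le
  have h3 : Δ * (ε₀ * (m * (b : ℝ) ^ K)) ≤ Δ * ∑ n ∈ D, ∑ n' ∈ D, L n n' * κ n n' :=
    mul_le_mul_of_nonneg_left hyp hΔ.le
  have h4 : 0 ≤ Δ * ε₀ * m * ((b : ℝ) ^ K - N) :=
    mul_nonneg (by positivity) (by linarith)
  rw [hx₀]
  nlinarith [h3, h4, hN2]

end Pool.Agent.Helper18.SC
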